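import Pool.Agent.H22.AN.TB1
import Pool.Agent.H13.SH.PHI

/-! MP_2697e3_an, all dimensions, part B: facts on the windows. -/

namespace Pool.Agent.H11.AN

open MeasureTheory Metric Set Filter Topology Pool.Agent.H87.SN Pool.Agent.H87.SH Pool.Agent.H87.AX
  Pool.Agent.H22.AN
open scoped ContDiff RealInnerProductSpace ENNReal

/-- the kernel is of class `C²` -/
theorem phi_cd2 (d : ℕ) : ContDiff ℝ 2 (phi (n := d)) := by
  have h1 : ContDiff ℝ (1 + 1) (fun s : ℝ => (max 0 s) ^ (1 + 2)) := by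
    rw [contDiff_succ_iff_deriv]
    refine ⟨fun t => (Pool.Agent.H13.SH.hasDerivAt_pos 1 t).differentiableAt,
      fun h => by simp at h, ?_⟩
    have h2 : deriv (fun s : ℝ => (max 0 s) ^ (1 + 2)) =
        fun t => ((1 + 2 : ℕ) : ℝ) * (max 0 t) ^ (0 + 2) := by
      ext t
      exact (Pool.Agent.H13.SH.hasDerivAt_pos 1 t).deriv
    rw [h2]
    exact contDiff_const.mul (Pool.Agent.H13.SH.contDiff_pos 0)
  rw [one_add_one_eq_two] at h1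
  have h3 : (phi (n := d)) = (fun s : ℝ => (max 0 s) ^ (1 + 2)) ∘ fun v : E d => 1 - ‖v‖ ^ 2 := rfl
  rw [h3]
  exact h1.comp (contDiff_const.sub (contDiff_norm_sq ℝ))

/-- derivative of a zoomed function -/
theorem hasFDerivAt_zoom {d : ℕ} {F : Type*} [NormedAddCommGroup F] [NormedSpace ℝ F]
    {f : E d → F} (hf : Differentiable ℝ f) (c s : ℝ) (z₀ z : E d) :
    HasFDerivAt (fun z => c • f (s • (z - z₀))) ((c * s) • fderiv ℝ f (s • (z - z₀))) z := by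
  have h1 : HasFDerivAt (fun z : E d => s • (z - z₀)) (s • ContinuousLinearMap.id ℝ (E d)) z :=
    ((hasFDerivAt_id z).sub_const z₀).const_smul s
  have h2 := (((hf (s • (z - z₀))).hasFDerivAt).comp z h1).const_smul c
  have h3 : c • (fderiv ℝ f (s • (z - z₀))).comp (s • ContinuousLinearMap.id ℝ (E d)) =
      (c * s) • fderiv ℝ f (s • (z - z₀)) := by
    ext v
    simp [smul_smul]
  rw [← h3]
  exact h2

/-- Taylor's inequality -/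
theorem taylor2 {d : ℕ} {f : E d → ℝ} (hf : ContDiff ℝ 2 f) {M : ℝ}
    (hM : ∀ z, ‖fderiv ℝ (fderiv ℝ f) z‖ ≤ M) (z w : E d) :
    |f (z - w) - f z + fderiv ℝ f z w| ≤ M * ‖w‖ ^ 2 := by
  have hd : Differentiable ℝ f := hf.differentiable (by norm_num)
  have hd2 : Differentiable ℝ (fderiv ℝ f) :=
    (hf.fderiv_right (m := 1) (by norm_num)).differentiable (by norm_num)
  have h1 : ∀ y ∈ closedBall z ‖w‖, ‖fderiv ℝ f y - fderiv ℝ f z‖ ≤ M * ‖w‖ := by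
    intro y hy
    have h2 := Convex.norm_image_sub_le_of_norm_fderiv_le (𝕜 := ℝ) (f := fderiv ℝ f) (C := M)
      (s := univ) (x := z) (y := y) (fun x _ => hd2 x) (fun x _ => hM x) convex_univ
      (mem_univ _) (mem_univ _)
    have h3 : ‖y - z‖ ≤ ‖w‖ := by
      rw [← dist_eq_norm]
      exact hy
    have h4 : 0 ≤ M := by
      have h5 := norm_nonneg (fderiv ℝ (fderiv ℝ f) z)
      exact h5.trans (hM z)
    exact h2.trans (mul_le_mul_of_nonneg_left h3 h4)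
  have h5 := Convex.norm_image_sub_le_of_norm_fderiv_le' (𝕜 := ℝ) (f := f) (C := M * ‖w‖)
    (φ := fderiv ℝ f z) (s := closedBall z ‖w‖) (x := z) (y := z - w) (fun x _ => hd x) h1
    (convex_closedBall _ _) (mem_closedBall_self (norm_nonneg _))
    (by rw [mem_closedBall, dist_eq_norm]; simp)
  have h6 : z - w - z = -w := by abel
  rw [h6, map_neg, sub_neg_eq_add, norm_neg, Real.norm_eq_abs] at h5
  calc |f (z - w) - f z + fderiv ℝ f z w| ≤ M * ‖w‖ * ‖w‖ := h5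
    _ = M * ‖w‖ ^ 2 := by ring

theorem nsm {d : ℕ} {F : Type*} [NormedAddCommGroup F] [NormedSpace ℝ F] (c : ℝ)
    (f : E d →L[ℝ] F) : ‖c • f‖ = |c| * ‖f‖ := by
  rw [norm_smul, Real.norm_eq_abs]

theorem cpt_bd {d : ℕ} {F : Type*} [NormedAddCommGroup F] [NormedSpace ℝ F] {f : E d → F}
    (hf : ContDiff ℝ 1 f) (hs : HasCompactSupport f) :
    ∃ A : ℝ, 0 ≤ A ∧ ∀ v : E d, ‖fderiv ℝ f v‖ ≤ A := by
  obtain ⟨A, hA⟩ := (hs.fderiv (𝕜 := ℝ)).exists_bound_of_continuous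
    (hf.continuous_fderiv (by norm_num))
  exact ⟨A, (norm_nonneg _).trans (hA 0), hA⟩

/-- bounds of the derivatives of the kernel -/
theorem phi_bounds (d : ℕ) (hs : HasCompactSupport (phi (n := d))) :
    ∃ A1 A2 : ℝ, 0 ≤ A1 ∧ 0 ≤ A2 ∧ (∀ v : E d, ‖fderiv ℝ phi v‖ ≤ A1) ∧
      ∀ v : E d, ‖fderiv ℝ (fderiv ℝ phi) v‖ ≤ A2 := by
  obtain ⟨A1, h1, hA1⟩ := cpt_bd ((phi_cd2 d).of_le (by norm_num)) hs
  obtain ⟨A2, h2, hA2⟩ := cpt_bd ((phi_cd2 d).fderiv_right (m := 1) (by norm_num))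
    (hs.fderiv (𝕜 := ℝ))
  exact ⟨A1, A2, h1, h2, hA1, hA2⟩

theorem bw_eq {d : ℕ} (z₀ : E d) (t : ℝ) :
    bw z₀ t = fun z => (cw d * t ^ d)⁻¹ • phi (t⁻¹ • (z - z₀)) := rfl

theorem bw_fd {d : ℕ} (z₀ : E d) (t : ℝ) : fderiv ℝ (bw z₀ t) =
    fun z => ((cw d * t ^ d)⁻¹ * t⁻¹) • fderiv ℝ phi (t⁻¹ • (z - z₀)) := by
  have hd1 : Differentiable ℝ (phi (n := d)) := (phi_cd2 d).differentiable (by norm_num)
  ext1 z
  rw [bw_eq]
  exact (hasFDerivAt_zoom hd1 _ _ z₀ z).fderiv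

theorem bw_fd2 {d : ℕ} (z₀ : E d) (t : ℝ) (z : E d) : fderiv ℝ (fderiv ℝ (bw z₀ t)) z =
    ((cw d * t ^ d)⁻¹ * t⁻¹ * t⁻¹) • fderiv ℝ (fderiv ℝ phi) (t⁻¹ • (z - z₀)) := by
  have hc1 : ContDiff ℝ 1 (fderiv ℝ (phi (n := d))) := (phi_cd2 d).fderiv_right (by norm_num)
  rw [bw_fd]
  exact (hasFDerivAt_zoom (hc1.differentiable (by norm_num)) _ _ z₀ z).fderiv

theorem bw_cd {d : ℕ} (z₀ : E d) (t : ℝ) : ContDiff ℝ 2 (bw z₀ t) := by
  rw [bw_eq]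
  exact ((phi_cd2 d).comp ((contDiff_id.sub contDiff_const).const_smul t⁻¹)).const_smul _

theorem bw_int {d : ℕ} (hκ : 0 < cw d) (z₀ : E d) {t : ℝ} (ht : 0 < t) : ∫ z, bw z₀ t z = 1 := by
  rw [bw_eq]
  simp only [smul_eq_mul]
  rw [integral_const_mul, integral_sub_right_eq_self (fun z : E d => phi (t⁻¹ • z)) z₀,
    Measure.integral_comp_inv_smul_of_nonneg volume _ ht.le, finrank_euclideanSpace,
    Fintype.card_fin, smul_eq_mul]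
  have h1 : ∫ v : E d, phi v = cw d := rfl
  have h2 : t ^ d ≠ 0 := (pow_pos ht d).ne'
  rw [h1]
  field_simp

theorem pf_BWF (hPHI : Pool.Agent.H87.SH.T_PHI) : T_BWF := by
  intro d
  obtain ⟨-, -, -, -, hb, -, hz, -, hs, -, -, -, hcw⟩ := hPHI d
  have hκ0 : 0 < cw d := hcw
  refine ⟨hκ0, ?_⟩
  obtain ⟨A1, A2, hA1', hA2', hA1, hA2⟩ := phi_bounds d hs
  obtain ⟨κ, hκd⟩ : ∃ κ, κ = cw d := ⟨_, rfl⟩
  have hκ : 0 < κ := by rw [hκd]; exact hκ0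
  obtain ⟨C, hC⟩ : ∃ C, C = κ⁻¹ * (1 + A1 + A2) + κ * (64 / 15) ^ 3 := ⟨_, rfl⟩
  have hκi : 0 < κ⁻¹ := inv_pos.2 hκ
  have p1 : 0 ≤ κ⁻¹ * A1 := mul_nonneg hκi.le hA1'
  have p2 : 0 ≤ κ⁻¹ * A2 := mul_nonneg hκi.le hA2'
  have p3 : 0 ≤ κ * (64 / 15) ^ 3 := mul_nonneg hκ.le (by norm_num)
  have hCe : C = κ⁻¹ + κ⁻¹ * A1 + κ⁻¹ * A2 + κ * (64 / 15) ^ 3 := by rw [hC]; ring
  have hC1 : κ⁻¹ ≤ C := by rw [hCe]; linarith
  have hC2 : κ⁻¹ * A1 ≤ C := by rw [hCe]; linarith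
  have hC3 : κ⁻¹ * A2 ≤ C := by rw [hCe]; linarith
  have hC4 : κ * (64 / 15) ^ 3 ≤ C := by rw [hCe]; linarith
  have hC0 : 0 < C := hκi.trans_le hC1
  refine ⟨C, hC0, ?_⟩
  intro z₀ t ht
  have htd : 0 < t ^ d := pow_pos ht d
  have hti : 0 < t⁻¹ := inv_pos.2 ht
  obtain ⟨c, hc⟩ : ∃ c, c = (cw d * t ^ d)⁻¹ := ⟨_, rfl⟩
  have hc0 : 0 < c := by rw [hc, ← hκd]; exact inv_pos.2 (mul_pos hκ htd)
  have hcκ : c = κ⁻¹ / t ^ d := by rw [hc, ← hκd, mul_inv]; rfl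
  have hB2 : ∀ z₁ z : E d, ‖fderiv ℝ (fderiv ℝ (bw z₁ t)) z‖ ≤ C / t ^ (d + 2) := by
    intro z₁ z
    rw [bw_fd2, ← hc, nsm, abs_of_nonneg (mul_nonneg (mul_nonneg hc0.le hti.le) hti.le)]
    calc c * t⁻¹ * t⁻¹ * ‖fderiv ℝ (fderiv ℝ phi) (t⁻¹ • (z - z₁))‖
        ≤ c * t⁻¹ * t⁻¹ * A2 :=
          mul_le_mul_of_nonneg_left (hA2 _) (mul_nonneg (mul_nonneg hc0.le hti.le) hti.le)
      _ = κ⁻¹ * A2 / t ^ (d + 2) := by
          rw [hcκ, pow_add]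
          field_simp
      _ ≤ C / t ^ (d + 2) := div_le_div_of_nonneg_right hC3 (pow_pos ht _).le
  refine ⟨bw_cd z₀ t, ?_, ?_, bw_int hκ0 z₀ ht, ?_, hB2 z₀, ?_, ?_⟩
  · intro z
    rw [bw_eq, ← hc]
    have h1 := hb (t⁻¹ • (z - z₀))
    refine ⟨mul_nonneg hc0.le h1.1, ?_⟩
    calc c • phi (t⁻¹ • (z - z₀)) ≤ c * 1 := mul_le_mul_of_nonneg_left h1.2 hc0.le
      _ = κ⁻¹ / t ^ d := by rw [mul_one, hcκ]
      _ ≤ C / t ^ d := div_le_div_of_nonneg_right hC1 htd.le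
  · intro z h
    rw [bw_eq]
    have h1 : 1 ≤ ‖t⁻¹ • (z - z₀)‖ := by
      rw [norm_smul, norm_inv, Real.norm_of_nonneg ht.le, inv_mul_eq_div, le_div_iff₀ ht, one_mul]
      exact h
    simp only [(hz _ h1).1, smul_zero]
  · intro z
    rw [bw_fd, ← hc, norm_smul, Real.norm_of_nonneg (mul_nonneg hc0.le hti.le)]
    calc c * t⁻¹ * ‖fderiv ℝ phi (t⁻¹ • (z - z₀))‖
        ≤ c * t⁻¹ * A1 := mul_le_mul_of_nonneg_left (hA1 _) (mul_nonneg hc0.le hti.le)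
      _ = κ⁻¹ * A1 / t ^ (d + 1) := by
          rw [hcκ, pow_add]
          field_simp
      _ ≤ C / t ^ (d + 1) := div_le_div_of_nonneg_right hC2 (pow_pos ht _).le
  · intro z h
    rw [bw_eq, ← hc]
    have h1 : ‖t⁻¹ • (z - z₀)‖ ≤ 7 / 8 := by
      rw [norm_smul, norm_inv, Real.norm_of_nonneg ht.le, inv_mul_eq_div, div_le_iff₀ ht]
      exact h
    have h2 : (15 / 64 : ℝ) ≤ max 0 (1 - ‖t⁻¹ • (z - z₀)‖ ^ 2) := by
      apply le_max_of_le_right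
      have h3 := norm_nonneg (t⁻¹ • (z - z₀))
      nlinarith
    have h3 : (15 / 64 : ℝ) ^ 3 ≤ phi (t⁻¹ • (z - z₀)) := by
      unfold phi
      exact pow_le_pow_left₀ (by norm_num) h2 3
    calc 1 / (C * t ^ d) ≤ 1 / (κ * (64 / 15) ^ 3 * t ^ d) := by
          refine one_div_le_one_div_of_le (by positivity) ?_
          exact mul_le_mul_of_nonneg_right hC4 htd.le
      _ = c * (15 / 64) ^ 3 := by
          rw [hcκ]
          field_simp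
      _ ≤ c • phi (t⁻¹ • (z - z₀)) := mul_le_mul_of_nonneg_left h3 hc0.le
  · intro z
    have h1 : bw z₀ t z = bw 0 t (z - z₀) := by
      rw [bw_eq, bw_eq]
      simp only [sub_zero]
    rw [h1]
    exact taylor2 (bw_cd 0 t) (hB2 0) z z₀

end Pool.Agent.H11.AN
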