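import Pool.Agent.H87.AN.TargetsC
import Pool.Agent.H80.AN.TargetsA

/-! MP_2697e3_an, all dimensions: trivial bound at one scale. -/

namespace Pool.Agent.H11.AN

open MeasureTheory Metric Set Filter Topology Pool.Agent.H87.SN Pool.Agent.H87.SH Pool.Agent.H87.AX
  Pool.Agent.H22.AN
open scoped ContDiff RealInnerProductSpace ENNReal

theorem sj_pos (j : ℕ) : 0 < sj j := by
  unfold sj
  positivity

theorem sj_le {i j : ℕ} (h : i ≤ j) : sj j ≤ sj i := by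
  unfold sj
  exact pow_le_pow_of_le_one (by norm_num) (by norm_num) h

theorem GD_nonneg {d m : ℕ} {Λ : ℝ} {G : V d → V d →L[ℝ] E m} (hG : GD Λ G) : 0 ≤ Λ := by
  have h1 := hG.den 0 1 one_pos (ball_subset_ball (by norm_num))
  have h2 : 0 ≤ (mu G).real (ball 0 1) := measureReal_nonneg
  rw [one_pow, mul_one] at h1
  exact h2.trans h1

/-- the set of large density is measurable -/
theorem meas_large {d m : ℕ} {G : V d → V d →L[ℝ] E m} (hMUF : T_MUF)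
    (hG : MemLp G 2 (volume.restrict (ball (0 : V d) 2))) (c : V d) (r e s : ℝ) :
    MeasurableSet {x | x ∈ ball c r ∧ e ≤ th G x s} := by
  have h1 := (hMUF d m G hG).2.2.2.2.2 s
  have h2 : Measurable fun x => th G x s := (h1.div_const (s ^ d)).measurable
  exact measurableSet_ball.inter (measurableSet_le measurable_const h2)

theorem one_scale (hMUF : T_MUF) (hVOL : T_VOL) (hBTF : T_BTF) {d m : ℕ} {Λ e : ℝ} (he : 0 < e)
    {G : V d → V d →L[ℝ] E m} (hG : GD Λ G) {s : ℝ} (hs : 0 < s)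
    (hrs : s ≤ 1 / 64) (f : V d → ℝ≥0∞)
    (hf : ∀ x ∈ ball (0 : V d) (7 / 4), f x ≤ ENNReal.ofReal (3 / 2)) :
    ENNReal.ofReal ((s ^ 2)⁻¹) *
      (∫⁻ x in {x : V d | x ∈ ball 0 (7 / 4) ∧ e ≤ th G x s}, f x * bs G x s) ≤
      ENNReal.ofReal (3 / 2 * (8 ^ (d + 2) * Λ) ^ (1 / 2 : ℝ) *
        (2 ^ (d + 2) * (Λ * 2 ^ d) / e)) := by
  have hΛ := GD_nonneg hG
  have hmem : MemLp G 2 (volume.restrict (ball (0 : V d) 2)) := hG.memG
  have hM : (mu G).real (ball 0 (7 / 4 + s)) ≤ Λ * 2 ^ d := by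
    have h1 := hG.den 0 (7 / 4 + s) (by linarith) (ball_subset_ball (by linarith))
    have h2 : (7 / 4 + s) ^ d ≤ 2 ^ d := pow_le_pow_left₀ (by linarith) (by linarith) d
    exact h1.trans (mul_le_mul_of_nonneg_left h2 hΛ)
  have hvol := hVOL d m G hmem e (Λ * 2 ^ d) 0 (7 / 4) s he hs (by norm_num) hM
  have hpt : ∀ x ∈ {x : V d | x ∈ ball 0 (7 / 4) ∧ e ≤ th G x s},
      f x * bs G x s ≤ ENNReal.ofReal (3 / 2 * (8 ^ (d + 2) * Λ) ^ (1 / 2 : ℝ)) := by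
    rintro x ⟨hx, -⟩
    have hb : ball x (8 * s) ⊆ ball (0 : V d) 2 := by
      refine ball_subset_ball' ?_
      rw [mem_ball] at hx
      linarith
    have h1 := (hBTF d).2.2.2.1 m G Λ hG x s hs hb
    have h2 : bs G x s ≤ ENNReal.ofReal ((8 ^ (d + 2) * Λ) ^ (1 / 2 : ℝ)) := by
      rw [← ENNReal.ofReal_rpow_of_nonneg (by positivity) (by norm_num)]
      exact ENNReal.rpow_le_rpow h1 (by norm_num)
    rw [ENNReal.ofReal_mul (by norm_num)]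
    exact mul_le_mul' (hf x hx) h2
  have hA := meas_large hMUF hmem 0 (7 / 4) e s
  calc ENNReal.ofReal ((s ^ 2)⁻¹) *
      (∫⁻ x in {x : V d | x ∈ ball 0 (7 / 4) ∧ e ≤ th G x s}, f x * bs G x s)
      ≤ ENNReal.ofReal ((s ^ 2)⁻¹) *
        (∫⁻ x in {x : V d | x ∈ ball 0 (7 / 4) ∧ e ≤ th G x s},
          ENNReal.ofReal (3 / 2 * (8 ^ (d + 2) * Λ) ^ (1 / 2 : ℝ))) :=
        mul_le_mul' le_rfl (setLIntegral_mono' hA hpt)
    _ = ENNReal.ofReal ((s ^ 2)⁻¹) * (ENNReal.ofReal (3 / 2 * (8 ^ (d + 2) * Λ) ^ (1 / 2 : ℝ)) *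
          volume {x : V d | x ∈ ball 0 (7 / 4) ∧ e ≤ th G x s}) := by
        rw [setLIntegral_const]
    _ ≤ ENNReal.ofReal ((s ^ 2)⁻¹) * (ENNReal.ofReal (3 / 2 * (8 ^ (d + 2) * Λ) ^ (1 / 2 : ℝ)) *
          ENNReal.ofReal (2 ^ (d + 2) * (Λ * 2 ^ d) / e * s ^ 2)) :=
        mul_le_mul' le_rfl (mul_le_mul' le_rfl hvol)
    _ = ENNReal.ofReal (3 / 2 * (8 ^ (d + 2) * Λ) ^ (1 / 2 : ℝ) *
          (2 ^ (d + 2) * (Λ * 2 ^ d) / e)) := by
        rw [← ENNReal.ofReal_mul (by positivity), ← ENNReal.ofReal_mul (by positivity)]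
        congr 1
        have hs2 : (s ^ 2)⁻¹ * s ^ 2 = 1 := inv_mul_cancel₀ (by positivity)
        calc (s ^ 2)⁻¹ * (3 / 2 * (8 ^ (d + 2) * Λ) ^ (1 / 2 : ℝ) *
              (2 ^ (d + 2) * (Λ * 2 ^ d) / e * s ^ 2))
            = ((s ^ 2)⁻¹ * s ^ 2) * (3 / 2 * (8 ^ (d + 2) * Λ) ^ (1 / 2 : ℝ) *
              (2 ^ (d + 2) * (Λ * 2 ^ d) / e)) := by ring
          _ = _ := by rw [hs2, one_mul]

theorem pf_HTR (hMUF : T_MUF) (hVOL : T_VOL) (hBTF : T_BTF) : T_HTR := by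
  intro d Λ e _ he
  refine ⟨3 / 2 * (8 ^ (d + 2) * |Λ|) ^ (1 / 2 : ℝ) * (2 ^ (d + 2) * (|Λ| * 2 ^ d) / e),
    by positivity, ?_⟩
  intro m G hG i hi
  have hΛ := GD_nonneg hG
  rw [abs_of_nonneg hΛ]
  have h1 : sj i ≤ 1 / 64 := (sj_le hi).trans (by unfold sj; norm_num)
  constructor
  · unfold Kw
    refine one_scale hMUF hVOL hBTF he hG (sj_pos i) h1 _ ?_
    intro x _
    rw [← ENNReal.ofReal_one]
    exact ENNReal.ofReal_le_ofReal (by norm_num)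
  · unfold Hj Kw
    refine one_scale hMUF hVOL hBTF he hG (sj_pos i) h1 _ ?_
    intro x _
    exact ENNReal.ofReal_le_ofReal (by linarith [norm_nonneg x])

end Pool.Agent.H11.AN
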